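import Mathlib
import Pool.Agent.Q145.GC.Spec

/-!
# Project GC, job GC3: exponential moments of `h / φ(h)`, near periodicity of the singular series
-/

set_option autoImplicit false

namespace Pool.Agent.Q199.GC

open Finset Pool.Agent.Q145.GC Filter Topology

/-- the primes up to `H` -/
def pr (H : ℕ) : Finset ℕ := (Icc 1 H).filter Nat.Prime

theorem count (H : ℕ) (c : Finset ℕ → ℝ) (hc : ∀ S ∈ (pr H).powerset, 0 ≤ c S) :
    ∑ h ∈ Icc 1 H, ∑ S ∈ h.primeFactors.powerset, c S ≤
      H * ∑ S ∈ (pr H).powerset, c S / ∏ p ∈ S, (p : ℝ) := by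
  classical
  have h1 : ∀ h ∈ Icc 1 H, ∑ S ∈ h.primeFactors.powerset, c S =
      ∑ S ∈ (pr H).powerset, if S ⊆ h.primeFactors then c S else 0 := by
    intro h hh
    rw [← Finset.sum_filter]
    apply Finset.sum_congr _ (fun _ _ => rfl)
    ext S
    rw [mem_powerset, mem_filter, mem_powerset]
    constructor
    · intro h2
      refine ⟨h2.trans ?_, h2⟩
      intro p hp
      rw [mem_Icc] at hh
      have hpp := Nat.prime_of_mem_primeFactors hp
      have hpd := Nat.dvd_of_mem_primeFactors hp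
      unfold pr
      rw [mem_filter, mem_Icc]
      exact ⟨⟨hpp.one_lt.le, (Nat.le_of_dvd hh.1 hpd).trans hh.2⟩, hpp⟩
    · exact fun h2 => h2.2
  rw [Finset.sum_congr rfl h1, Finset.sum_comm, Finset.mul_sum]
  apply Finset.sum_le_sum
  intro S hS
  have hSp : ∀ p ∈ S, p.Prime := fun p hp => (mem_filter.1 (mem_powerset.1 hS hp)).2
  rw [← Finset.sum_filter, Finset.sum_const, nsmul_eq_mul]
  have hd0 : 0 < ∏ p ∈ S, p := Finset.prod_pos fun p hp => (hSp p hp).pos
  have h2 : ((Icc 1 H).filter (fun h => S ⊆ h.primeFactors)).card ≤ H / ∏ p ∈ S, p := by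
    rw [← Nat.Ioc_filter_dvd_card_eq_div]
    apply Finset.card_le_card
    intro h hh
    rw [mem_filter, mem_Icc] at hh
    rw [mem_filter, mem_Ioc]
    refine ⟨⟨by omega, hh.1.2⟩, ?_⟩
    exact Finset.prod_primes_dvd h (fun p hp => (hSp p hp).prime)
      (fun p hp => Nat.dvd_of_mem_primeFactors (hh.2 hp))
  have h3 : (((Icc 1 H).filter (fun h => S ⊆ h.primeFactors)).card : ℝ) ≤ H / ∏ p ∈ S, (p : ℝ) := by
    calc (((Icc 1 H).filter (fun h => S ⊆ h.primeFactors)).card : ℝ) ≤ ((H / ∏ p ∈ S, p : ℕ) : ℝ) := by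
          exact_mod_cast h2
      _ ≤ (H : ℝ) / ((∏ p ∈ S, p : ℕ) : ℝ) := Nat.cast_div_le
      _ = _ := by push_cast; rfl
  calc _ ≤ (H / ∏ p ∈ S, (p : ℝ)) * c S := mul_le_mul_of_nonneg_right h3 (hc S hS)
    _ = _ := by ring

theorem prod_pos' {S : Finset ℕ} {a : ℕ → ℝ} (h : ∀ p ∈ S, 0 ≤ a p) : 0 ≤ ∏ p ∈ S, a p :=
  Finset.prod_nonneg h

/-- sums of differences of two multiplicative functions -/
theorem sum_diff (H : ℕ) (a b : ℕ → ℝ) (hb : ∀ p, p.Prime → 0 ≤ b p) (hab : ∀ p, p.Prime → b p ≤ a p) :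
    ∑ h ∈ Icc 1 H, (∏ p ∈ h.primeFactors, (1 + a p) - ∏ p ∈ h.primeFactors, (1 + b p)) ≤
      H * (∏ p ∈ pr H, (1 + a p / p) - ∏ p ∈ pr H, (1 + b p / p)) := by
  have hS : ∀ S ∈ (pr H).powerset, ∀ p ∈ S, p.Prime :=
    fun S hS p hp => (mem_filter.1 (mem_powerset.1 hS hp)).2
  have h1 := count H (fun S => ∏ p ∈ S, a p - ∏ p ∈ S, b p) (fun S hS' => by
    apply sub_nonneg.2
    exact Finset.prod_le_prod (fun p hp => hb p (hS S hS' p hp)) (fun p hp => hab p (hS S hS' p hp)))
  have h2 : ∀ (T : Finset ℕ) (f : ℕ → ℝ), ∏ p ∈ T, (1 + f p) = ∑ S ∈ T.powerset, ∏ p ∈ S, f p := by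
    intro T f
    rw [← Finset.prod_add_one]
    exact Finset.prod_congr rfl fun p _ => add_comm _ _
  calc _ = ∑ h ∈ Icc 1 H, ∑ S ∈ h.primeFactors.powerset, (∏ p ∈ S, a p - ∏ p ∈ S, b p) := by
        refine Finset.sum_congr rfl fun h _ => ?_
        rw [h2, h2, Finset.sum_sub_distrib]
    _ ≤ _ := h1
    _ = _ := by
        rw [h2, h2, ← Finset.sum_sub_distrib]
        congr 1
        refine Finset.sum_congr rfl fun S _ => ?_
        rw [sub_div, Finset.prod_div_distrib, Finset.prod_div_distrib]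

/-- sums of a multiplicative function -/
theorem sum_mult (H : ℕ) (a : ℕ → ℝ) (ha : ∀ p, p.Prime → 0 ≤ a p) :
    ∑ h ∈ Icc 1 H, ∏ p ∈ h.primeFactors, (1 + a p) ≤ H * ∏ p ∈ pr H, (1 + a p / p) := by
  have hS : ∀ S ∈ (pr H).powerset, ∀ p ∈ S, p.Prime :=
    fun S hS p hp => (mem_filter.1 (mem_powerset.1 hS hp)).2
  have h1 := count H (fun S => ∏ p ∈ S, a p) (fun S hS' =>
    Finset.prod_nonneg fun p hp => ha p (hS S hS' p hp))
  have h2 : ∀ (T : Finset ℕ) (f : ℕ → ℝ), ∏ p ∈ T, (1 + f p) = ∑ S ∈ T.powerset, ∏ p ∈ S, f p := by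
    intro T f
    rw [← Finset.prod_add_one]
    exact Finset.prod_congr rfl fun p _ => add_comm _ _
  calc _ = ∑ h ∈ Icc 1 H, ∑ S ∈ h.primeFactors.powerset, ∏ p ∈ S, a p :=
        Finset.sum_congr rfl fun h _ => h2 _ _
    _ ≤ _ := h1
    _ = _ := by
        rw [h2]
        congr 1
        refine Finset.sum_congr rfl fun S _ => ?_
        rw [Finset.prod_div_distrib]

/-- `h / φ(h)` as a product -/
theorem ratio_eq {h : ℕ} (hh : h ≠ 0) :
    (h : ℝ) / Nat.totient h = ∏ p ∈ h.primeFactors, (1 + 1 / ((p : ℝ) - 1)) := by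
  have h1 : (Nat.totient h : ℝ) = h * ∏ p ∈ h.primeFactors, (1 - (p : ℝ)⁻¹) := by
    have := Nat.totient_eq_mul_prod_factors h
    have h2 : ((Nat.totient h : ℚ) : ℝ) = ((h * ∏ p ∈ h.primeFactors, (1 - (p : ℚ)⁻¹) : ℚ) : ℝ) := by
      rw [this]
    push_cast at h2
    exact h2
  have h0 : (h : ℝ) ≠ 0 := by exact_mod_cast hh
  rw [h1, div_mul_eq_div_div, div_self h0, one_div, ← Finset.prod_inv_distrib]
  refine Finset.prod_congr rfl fun p hp => ?_
  have hp2 : (2 : ℝ) ≤ p := by exact_mod_cast (Nat.prime_of_mem_primeFactors hp).two_le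
  have e1 : (p : ℝ) ≠ 0 := by linarith
  have e2 : (p : ℝ) - 1 ≠ 0 := by linarith
  field_simp
  ring

/-- tails of `∑ 1 / (n (n - 1))` -/
theorem tail_sum {w : ℕ} (hw : 1 ≤ w) (H : ℕ) (T : Finset ℕ) (hT : T ⊆ Ioc w H) :
    ∑ p ∈ T, 1 / ((p : ℝ) * (p - 1)) ≤ 1 / w := by
  have hw0 : (1 : ℝ) ≤ w := by exact_mod_cast hw
  have h1 : ∑ p ∈ T, 1 / ((p : ℝ) * (p - 1)) ≤ ∑ p ∈ Ioc w H, 1 / ((p : ℝ) * (p - 1)) := by
    apply Finset.sum_le_sum_of_subset_of_nonneg hT
    intro p hp _
    rw [mem_Ioc] at hp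
    have : (w : ℝ) < p := by exact_mod_cast hp.1
    have : 0 < (p : ℝ) - 1 := by linarith
    positivity
  refine h1.trans ?_
  rcases le_or_gt w H with h | h
  · have h2 : ∀ N, w ≤ N → ∑ p ∈ Ioc w N, 1 / ((p : ℝ) * (p - 1)) = 1 / w - 1 / N := by
      intro N hN
      induction N, hN using Nat.le_induction with
      | base => simp
      | succ N hN ih =>
        rw [Finset.sum_Ioc_succ_top hN, ih]
        have hN1 : (1 : ℝ) ≤ N := hw0.trans (by exact_mod_cast hN)
        have e : ((N + 1 : ℕ) : ℝ) - 1 = N := by push_cast; ring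
        rw [e]
        push_cast
        have e1 : (N : ℝ) ≠ 0 := by linarith
        have e2 : (N : ℝ) + 1 ≠ 0 := by linarith
        have e3 : (w : ℝ) ≠ 0 := by linarith
        field_simp
        ring
    rw [h2 H h]
    have : (0 : ℝ) ≤ 1 / H := by positivity
    linarith
  · rw [Finset.Ioc_eq_empty (by omega), Finset.sum_empty]
    positivity

/-- the product over the small primes -/
theorem prod_small (m : ℕ) (hm : 1 ≤ m) :
    (∏ p ∈ pr (2 * m), (1 + 1 / ((p : ℝ) - 1))) ^ 2 ≤ 4 * (2 * m - 1) := by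
  classical
  induction m, hm using Nat.le_induction with
  | base =>
    have : pr (2 * 1) = {2} := by decide
    rw [this, Finset.prod_singleton]
    norm_num
  | succ m hm ih =>
    have hm1 : (1 : ℝ) ≤ m := by exact_mod_cast hm
    have h0 : 0 ≤ (∏ p ∈ pr (2 * m), (1 + 1 / ((p : ℝ) - 1))) ^ 2 := sq_nonneg _
    by_cases hp : (2 * m + 1).Prime
    · have h1 : pr (2 * (m + 1)) = insert (2 * m + 1) (pr (2 * m)) := by
        ext p
        unfold pr
        rw [mem_filter, mem_insert, mem_filter, mem_Icc, mem_Icc]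
        constructor
        · rintro ⟨⟨h1, h2⟩, h3⟩
          by_cases h4 : p = 2 * m + 1
          · exact Or.inl h4
          · right
            refine ⟨⟨h1, ?_⟩, h3⟩
            by_contra h5
            have h6 : p = 2 * (m + 1) := by omega
            rw [h6] at h3
            have := (Nat.prime_mul_iff.1 h3)
            omega
        · rintro (h1 | ⟨⟨h1, h2⟩, h3⟩)
          · subst h1
            exact ⟨⟨by omega, by omega⟩, hp⟩
          · exact ⟨⟨h1, by omega⟩, h3⟩
      have h2 : 2 * m + 1 ∉ pr (2 * m) := by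
        unfold pr
        rw [mem_filter, mem_Icc]
        omega
      rw [h1, Finset.prod_insert h2, mul_pow]
      have h3 : (1 + 1 / (((2 * m + 1 : ℕ) : ℝ) - 1)) ^ 2 ≤ (2 * m + 1) / (2 * m - 1) := by
        push_cast
        have e : (2 * (m : ℝ) + 1 - 1) = 2 * m := by ring
        rw [e, le_div_iff₀ (by linarith)]
        have e1 : 1 + 1 / (2 * (m : ℝ)) = (2 * m + 1) / (2 * m) := by
          field_simp
        rw [e1, div_pow, div_mul_eq_mul_div, div_le_iff₀ (by positivity)]
        nlinarith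
      have h4 : (0 : ℝ) ≤ (2 * m + 1) / (2 * m - 1) := div_nonneg (by linarith) (by linarith)
      calc _ ≤ (2 * m + 1) / (2 * m - 1) * (4 * (2 * (m : ℝ) - 1)) := mul_le_mul h3 ih h0 h4
        _ = _ := by
            have : 2 * (m : ℝ) - 1 ≠ 0 := by linarith
            push_cast
            field_simp
            ring
    · have h1 : pr (2 * (m + 1)) = pr (2 * m) := by
        ext p
        unfold pr
        rw [mem_filter, mem_filter, mem_Icc, mem_Icc]
        constructor
        · rintro ⟨⟨h1, h2⟩, h3⟩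
          refine ⟨⟨h1, ?_⟩, h3⟩
          by_contra h5
          have h6 : p = 2 * (m + 1) ∨ p = 2 * m + 1 := by omega
          rcases h6 with h6 | h6
          · rw [h6] at h3
            have := (Nat.prime_mul_iff.1 h3)
            omega
          · rw [h6] at h3
            exact hp h3
        · rintro ⟨⟨h1, h2⟩, h3⟩
          exact ⟨⟨h1, by omega⟩, h3⟩
      rw [h1]
      refine ih.trans ?_
      push_cast
      linarith

theorem prod_small' (k H : ℕ) (hk : 1 ≤ k) :
    ∏ p ∈ (pr H).filter (fun p => p ≤ k), (1 + 1 / ((p : ℝ) - 1)) ≤ 2 * √(k : ℝ) := by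
  set m := (k + 1) / 2 with hm
  have hm1 : 1 ≤ m := by omega
  have hf : ∀ p ∈ pr (2 * m), (1 : ℝ) ≤ 1 + 1 / ((p : ℝ) - 1) := by
    intro p hp
    have : (2 : ℝ) ≤ p := by exact_mod_cast (mem_filter.1 hp).2.two_le
    have : 0 ≤ 1 / ((p : ℝ) - 1) := div_nonneg zero_le_one (by linarith)
    linarith
  have h1 : ∏ p ∈ (pr H).filter (fun p => p ≤ k), (1 + 1 / ((p : ℝ) - 1)) ≤
      ∏ p ∈ pr (2 * m), (1 + 1 / ((p : ℝ) - 1)) := by
    have hsub : (pr H).filter (fun p => p ≤ k) ⊆ pr (2 * m) := by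
      intro p hp
      unfold pr at *
      rw [mem_filter, mem_filter, mem_Icc] at hp
      rw [mem_filter, mem_Icc]
      exact ⟨⟨hp.1.1.1, by omega⟩, hp.1.2⟩
    rw [← Finset.prod_sdiff hsub]
    have h2 : 1 ≤ ∏ p ∈ pr (2 * m) \ (pr H).filter (fun p => p ≤ k), (1 + 1 / ((p : ℝ) - 1)) := by
      apply Finset.prod_induction _ (fun x => 1 ≤ x)
      · intro a b ha hb
        nlinarith
      · exact le_rfl
      · intro p hp
        exact hf p (mem_sdiff.1 hp).1
    have h3 : 0 ≤ ∏ p ∈ (pr H).filter (fun p => p ≤ k), (1 + 1 / ((p : ℝ) - 1)) := by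
      apply Finset.prod_nonneg
      intro p hp
      linarith [hf p (hsub hp)]
    nlinarith
  refine h1.trans ?_
  have h2 := prod_small m hm1
  have h3 : (4 * (2 * (m : ℝ) - 1)) ≤ 4 * k := by
    have : 2 * m ≤ k + 1 := by omega
    have : 2 * (m : ℝ) ≤ k + 1 := by exact_mod_cast this
    linarith
  apply le_of_sq_le_sq _ (by positivity)
  rw [mul_pow, Real.sq_sqrt (Nat.cast_nonneg k)]
  linarith

theorem moment (k H : ℕ) :
    ∑ h ∈ Icc 1 H, ((h : ℝ) / Nat.totient h) ^ k ≤ H * (Real.exp 2 * (2 * √(k : ℝ)) ^ k) := by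
  rcases Nat.eq_zero_or_pos k with rfl | hk
  · simp only [pow_zero, Finset.sum_const, Nat.card_Icc, Nat.add_sub_cancel, nsmul_eq_mul, mul_one]
    have : (1 : ℝ) ≤ Real.exp 2 := Real.one_le_exp (by norm_num)
    have : (0 : ℝ) ≤ H := Nat.cast_nonneg H
    nlinarith
  · set a : ℕ → ℝ := fun p => (1 + 1 / ((p : ℝ) - 1)) ^ k - 1 with ha
    have hb : ∀ p : ℕ, p.Prime → (1 : ℝ) ≤ 1 + 1 / ((p : ℝ) - 1) := by
      intro p hp
      have : (2 : ℝ) ≤ p := by exact_mod_cast hp.two_le
      have : 0 ≤ 1 / ((p : ℝ) - 1) := div_nonneg zero_le_one (by linarith)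
      linarith
    have ha0 : ∀ p : ℕ, p.Prime → 0 ≤ a p := fun p hp => sub_nonneg.2 (one_le_pow₀ (hb p hp))
    have h1 := sum_mult H a ha0
    have h2 : ∀ h ∈ Icc 1 H, ((h : ℝ) / Nat.totient h) ^ k = ∏ p ∈ h.primeFactors, (1 + a p) := by
      intro h hh
      rw [mem_Icc] at hh
      rw [ratio_eq (by omega), ← Finset.prod_pow]
      refine Finset.prod_congr rfl fun p _ => ?_
      rw [ha]
      ring
    rw [Finset.sum_congr rfl h2]
    refine h1.trans ?_
    apply mul_le_mul_of_nonneg_left _ (Nat.cast_nonneg H)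
    rw [← Finset.prod_filter_mul_prod_filter_not (pr H) (fun p => p ≤ k), mul_comm]
    have hk0 : (0 : ℝ) < k := by exact_mod_cast hk
    have hP : ∀ p ∈ pr H, p.Prime := fun p hp => (mem_filter.1 hp).2
    apply mul_le_mul
    · -- large primes
      have h3 : ∀ p ∈ (pr H).filter (fun p => ¬ p ≤ k), 1 + a p / p ≤
          Real.exp (2 * k * (1 / ((p : ℝ) * (p - 1)))) := by
        intro p hp
        rw [mem_filter] at hp
        have hpp := hP p hp.1
        have hp2 : (2 : ℝ) ≤ p := by exact_mod_cast hpp.two_le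
        have hkp : (k : ℝ) + 1 ≤ p := by
          have : k + 1 ≤ p := by omega
          exact_mod_cast this
        have h4 : (1 + 1 / ((p : ℝ) - 1)) ^ k ≤ Real.exp (k / (p - 1)) := by
          have h5 : 1 + 1 / ((p : ℝ) - 1) ≤ Real.exp (1 / (p - 1)) := by
            linarith [Real.add_one_le_exp (1 / ((p : ℝ) - 1))]
          calc (1 + 1 / ((p : ℝ) - 1)) ^ k ≤ (Real.exp (1 / (p - 1))) ^ k :=
                pow_le_pow_left₀ (by linarith [hb p hpp]) h5 k
            _ = _ := by rw [← Real.exp_nat_mul]; congr 1; ring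
        have h6 : (k : ℝ) / (p - 1) ≤ 1 := by
          rw [div_le_one (by linarith)]
          linarith
        have h60 : 0 ≤ (k : ℝ) / (p - 1) := div_nonneg hk0.le (by linarith)
        have h7 : Real.exp (k / (p - 1)) ≤ 1 + 2 * (k / (p - 1)) := by
          have := Real.abs_exp_sub_one_sub_id_le (x := (k : ℝ) / (p - 1)) (by rw [abs_of_nonneg h60]; exact h6)
          have h8 := (abs_le.1 this).2
          nlinarith
        have h9 : a p ≤ 2 * (k / (p - 1)) := by
          rw [ha]
          linarith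
        have h10 : a p / p ≤ 2 * k * (1 / ((p : ℝ) * (p - 1))) := by
          rw [div_le_iff₀ (by linarith)]
          have e1 : 2 * k * (1 / ((p : ℝ) * (p - 1))) * p = 2 * (k / (p - 1)) := by
            have : (p : ℝ) ≠ 0 := by linarith
            have : (p : ℝ) - 1 ≠ 0 := by linarith
            field_simp
          rw [e1]
          exact h9
        linarith [Real.add_one_le_exp (2 * k * (1 / ((p : ℝ) * (p - 1))))]
      have h4 : ∏ p ∈ (pr H).filter (fun p => ¬ p ≤ k), (1 + a p / p) ≤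
          ∏ p ∈ (pr H).filter (fun p => ¬ p ≤ k), Real.exp (2 * k * (1 / ((p : ℝ) * (p - 1)))) := by
        apply Finset.prod_le_prod _ h3
        intro p hp
        have := ha0 p (hP p (mem_filter.1 hp).1)
        positivity
      refine h4.trans ?_
      rw [← Real.exp_sum, ← Finset.mul_sum]
      apply Real.exp_le_exp.2
      have h5 := tail_sum (w := k) hk H ((pr H).filter (fun p => ¬ p ≤ k)) (by
        intro p hp
        unfold pr at hp
        rw [mem_filter, mem_filter, mem_Icc] at hp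
        rw [mem_Ioc]
        omega)
      calc 2 * (k : ℝ) * _ ≤ 2 * k * (1 / k) := mul_le_mul_of_nonneg_left h5 (by positivity)
        _ = 2 := by field_simp
    · -- small primes
      have h3 : ∏ p ∈ (pr H).filter (fun p => p ≤ k), (1 + a p / p) ≤
          ∏ p ∈ (pr H).filter (fun p => p ≤ k), (1 + 1 / ((p : ℝ) - 1)) ^ k := by
        apply Finset.prod_le_prod
        · intro p hp
          have := ha0 p (hP p (mem_filter.1 hp).1)
          positivity
        · intro p hp
          have hpp := hP p (mem_filter.1 hp).1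
          have h5 := ha0 p hpp
          have hp1 : (1 : ℝ) ≤ p := by exact_mod_cast hpp.one_lt.le
          have h6 : a p / p ≤ a p := div_le_self h5 hp1
          have h7 : 1 + a p = (1 + 1 / ((p : ℝ) - 1)) ^ k := by rw [ha]; ring
          linarith
      refine h3.trans ?_
      rw [Finset.prod_pow]
      apply pow_le_pow_left₀ _ (prod_small' k H hk)
      apply Finset.prod_nonneg
      intro p hp
      linarith [hb p (hP p (mem_filter.1 hp).1)]
    · apply Finset.prod_nonneg
      intro p hp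
      have := ha0 p (hP p (mem_filter.1 hp).1)
      positivity
    · exact (Real.exp_pos 2).le

/-- the series of the moments converges -/
theorem summ (B : ℝ) (hB : 0 ≤ B) :
    Summable (fun k : ℕ => B ^ k * (Real.exp 2 * (2 * √(k : ℝ)) ^ k) / k.factorial) := by
  obtain ⟨N, hN⟩ := exists_nat_ge ((4 * B * Real.exp 1) ^ 2)
  have h1 : Summable (fun k : ℕ => Real.exp 2 * (1 / 2 : ℝ) ^ k) :=
    (summable_geometric_of_lt_one (by norm_num) (by norm_num)).mul_left _
  apply Summable.of_norm_bounded_eventually_nat h1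
  filter_upwards [eventually_ge_atTop (max N 1)] with k hk
  have hkN : (N : ℝ) ≤ k := by exact_mod_cast (le_max_left _ _).trans hk
  have hk1 : (1 : ℝ) ≤ k := by exact_mod_cast (le_max_right _ _).trans hk
  have hs : 0 < √(k : ℝ) := Real.sqrt_pos.2 (by linarith)
  have hsq : 4 * B * Real.exp 1 ≤ √(k : ℝ) := by
    apply Real.le_sqrt_of_sq_le
    linarith
  rw [Real.norm_of_nonneg (by positivity)]
  have h2 : (k : ℝ) ^ k / k.factorial ≤ Real.exp k := Real.pow_div_factorial_le_exp _ (by linarith) k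
  have h3 : (√(k : ℝ)) ^ k * (√(k : ℝ)) ^ k = (k : ℝ) ^ k := by
    rw [← mul_pow, Real.mul_self_sqrt (by linarith)]
  have h4 : (√(k : ℝ)) ^ k / k.factorial ≤ (Real.exp 1 / √(k : ℝ)) ^ k := by
    rw [div_pow, le_div_iff₀ (by positivity), ← Real.exp_nat_mul, mul_one]
    calc _ = (k : ℝ) ^ k / k.factorial := by rw [← h3]; ring
      _ ≤ _ := h2
  have h5 : B ^ k * (Real.exp 2 * (2 * √(k : ℝ)) ^ k) / k.factorial =
      Real.exp 2 * (2 * B) ^ k * ((√(k : ℝ)) ^ k / k.factorial) := by
    rw [mul_pow, mul_pow]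
    ring
  rw [h5]
  calc Real.exp 2 * (2 * B) ^ k * ((√(k : ℝ)) ^ k / k.factorial) ≤
        Real.exp 2 * (2 * B) ^ k * (Real.exp 1 / √(k : ℝ)) ^ k := by gcongr
    _ = Real.exp 2 * (2 * B * Real.exp 1 / √(k : ℝ)) ^ k := by
        rw [mul_assoc, ← mul_pow]
        congr 2
        ring
    _ ≤ Real.exp 2 * (1 / 2) ^ k := by
        apply mul_le_mul_of_nonneg_left _ (Real.exp_pos 2).le
        apply pow_le_pow_left₀ (by positivity)
        rw [div_le_iff₀ hs]
        linarith

theorem em : S_Em := by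
  intro B
  set b := |B| with hb
  have hb0 : 0 ≤ b := abs_nonneg B
  set t : ℕ → ℝ := fun k => b ^ k * (Real.exp 2 * (2 * √(k : ℝ)) ^ k) / k.factorial with ht
  have hsum : Summable t := summ b hb0
  refine ⟨∑' k, t k, fun H => ?_⟩
  have hF : ∀ h : ℕ, 0 ≤ (h : ℝ) / Nat.totient h := fun h => by positivity
  have h1 : ∀ h : ℕ, HasSum (fun k : ℕ => (b * ((h : ℝ) / Nat.totient h)) ^ k / k.factorial)
      (Real.exp (b * ((h : ℝ) / Nat.totient h))) := by
    intro h
    rw [Real.exp_eq_exp_ℝ]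
    exact NormedSpace.expSeries_div_hasSum_exp _
  have h2 := hasSum_sum (s := Icc 1 H) (fun h _ => h1 h)
  have h3 : ∑ h ∈ Icc 1 H, Real.exp (b * ((h : ℝ) / Nat.totient h)) ≤ (∑' k, t k) * H := by
    refine le_of_tendsto h2.tendsto_sum_nat (Eventually.of_forall fun N => ?_)
    calc ∑ k ∈ range N, ∑ h ∈ Icc 1 H, (b * ((h : ℝ) / Nat.totient h)) ^ k / k.factorial
        ≤ ∑ k ∈ range N, t k * H := by
          apply Finset.sum_le_sum
          intro k _
          have h4 := moment k H
          calc ∑ h ∈ Icc 1 H, (b * ((h : ℝ) / Nat.totient h)) ^ k / k.factorial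
              = b ^ k / k.factorial * ∑ h ∈ Icc 1 H, ((h : ℝ) / Nat.totient h) ^ k := by
                rw [Finset.mul_sum]
                refine Finset.sum_congr rfl fun h _ => ?_
                rw [mul_pow]
                ring
            _ ≤ b ^ k / k.factorial * (H * (Real.exp 2 * (2 * √(k : ℝ)) ^ k)) := by gcongr
            _ = t k * H := by rw [ht]; ring
      _ = (∑ k ∈ range N, t k) * H := by rw [Finset.sum_mul]
      _ ≤ (∑' k, t k) * H := by
          apply mul_le_mul_of_nonneg_right _ (Nat.cast_nonneg H)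
          apply hsum.sum_le_tsum
          intro k _
          rw [ht]
          positivity
  refine le_trans (Finset.sum_le_sum fun h _ => ?_) h3
  apply Real.exp_le_exp.2
  exact mul_le_mul_of_nonneg_right (le_abs_self B) (hF h)

/-- an upper bound for products -/
theorem prod_exp (T : Finset ℕ) (a : ℕ → ℝ) (ha : ∀ p ∈ T, 0 ≤ 1 + a p) :
    ∏ p ∈ T, (1 + a p) ≤ Real.exp (∑ p ∈ T, a p) := by
  rw [Real.exp_sum]
  apply Finset.prod_le_prod ha
  intro p _
  linarith [Real.add_one_le_exp (a p)]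

theorem per : S_Per := by
  intro ε hε
  -- the choice of the level
  have hlim : Tendsto (fun w : ℕ => Real.exp 1 * (Real.exp (3 * (1 / (w : ℝ))) - 1) +
      Real.exp 1 * (2 * (1 / (w : ℝ)))) atTop (𝓝 0) := by
    have h1 : Tendsto (fun w : ℕ => (1 / (w : ℝ))) atTop (𝓝 0) := tendsto_one_div_atTop_nhds_zero_nat
    have h2 : Tendsto (fun w : ℕ => Real.exp (3 * (1 / (w : ℝ)))) atTop (𝓝 (Real.exp (3 * 0))) :=
      (Real.continuous_exp.tendsto _).comp (h1.const_mul 3)
    have h3 := ((h2.sub_const 1).const_mul (Real.exp 1)).add ((h1.const_mul 2).const_mul (Real.exp 1))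
    simpa using h3
  obtain ⟨w₁, hw₁⟩ := (hlim.eventually (ge_mem_nhds hε)).exists_forall_of_atTop
  refine ⟨max w₁ 2, fun w z H hw hwz => ?_⟩
  have hw1 : w₁ ≤ w := (le_max_left _ _).trans hw
  have hw2 : 2 ≤ w := (le_max_right _ _).trans hw
  have hwR : (2 : ℝ) ≤ w := by exact_mod_cast hw2
  have hε' := hw₁ w hw1
  -- the two multiplicative functions
  set b : ℕ → ℝ := fun p => 1 / ((p : ℝ) - 1) with hb
  set a : ℕ → ℝ := fun p => if p ≤ w then 1 / ((p : ℝ) - 1) else (1 + 1 / ((p : ℝ) - 1)) ^ 2 - 1 with ha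
  have hp2 : ∀ p : ℕ, p.Prime → (2 : ℝ) ≤ p := fun p hp => by exact_mod_cast hp.two_le
  have hb0 : ∀ p : ℕ, p.Prime → 0 ≤ b p := fun p hp => by
    rw [hb]
    have := hp2 p hp
    exact div_nonneg zero_le_one (by linarith)
  have hab : ∀ p : ℕ, p.Prime → b p ≤ a p := fun p hp => by
    have h1 := hb0 p hp
    rw [ha]
    simp only
    split_ifs with h
    · exact le_rfl
    · have h2 : 1 / ((p : ℝ) - 1) = b p := rfl
      rw [h2]
      nlinarith
  have hsub : ∀ H : ℕ, ∀ T ⊆ pr H, T ⊆ Ioc 1 H := by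
    intro H T hT p hp
    have h1 := hT hp
    unfold pr at h1
    rw [mem_filter, mem_Icc] at h1
    rw [mem_Ioc]
    exact ⟨h1.2.one_lt, h1.1.2⟩
  -- products over b
  have hbdiv : ∀ p : ℕ, p.Prime → b p / p = 1 / ((p : ℝ) * (p - 1)) := fun p hp => by
    have := hp2 p hp
    have e1 : (p : ℝ) ≠ 0 := by linarith
    have e2 : (p : ℝ) - 1 ≠ 0 := by linarith
    rw [hb]
    field_simp
  have hprb : ∀ T ⊆ pr H, ∏ p ∈ T, (1 + b p / p) ≤ Real.exp 1 := by
    intro T hT
    refine (prod_exp T (fun p => b p / p) ?_).trans (Real.exp_le_exp.2 ?_)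
    · intro p hp
      have hpp := (mem_filter.1 (hT hp)).2
      have := hb0 p hpp
      positivity
    · have h1 := tail_sum (w := 1) le_rfl H T (hsub H T hT)
      rw [Finset.sum_congr rfl fun p hp => hbdiv p (mem_filter.1 (hT hp)).2]
      simpa using h1
  -- first moment
  have hF : ∑ h ∈ Icc 1 H, (h : ℝ) / Nat.totient h ≤ H * Real.exp 1 := by
    have h1 := sum_mult H b hb0
    calc ∑ h ∈ Icc 1 H, (h : ℝ) / Nat.totient h = ∑ h ∈ Icc 1 H, ∏ p ∈ h.primeFactors, (1 + b p) := by
          refine Finset.sum_congr rfl fun h hh => ?_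
          rw [mem_Icc] at hh
          exact ratio_eq (by omega)
      _ ≤ _ := h1
      _ ≤ _ := mul_le_mul_of_nonneg_left (hprb _ (Finset.Subset.refl _)) (Nat.cast_nonneg H)
  -- the difference
  have hdiff := sum_diff H a b hb0 hab
  have hprod : ∏ p ∈ pr H, (1 + a p / p) - ∏ p ∈ pr H, (1 + b p / p) ≤
      Real.exp 1 * (Real.exp (3 * (1 / (w : ℝ))) - 1) := by
    rw [← Finset.prod_filter_mul_prod_filter_not (pr H) (fun p => p ≤ w),
      ← Finset.prod_filter_mul_prod_filter_not (pr H) (fun p => p ≤ w)]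
    have e1 : ∏ p ∈ (pr H).filter (fun p => p ≤ w), (1 + a p / p) =
        ∏ p ∈ (pr H).filter (fun p => p ≤ w), (1 + b p / p) := by
      refine Finset.prod_congr rfl fun p hp => ?_
      rw [mem_filter] at hp
      rw [ha, hb]
      simp only [hp.2, if_true]
    rw [e1, ← mul_sub]
    have h1 : 0 ≤ ∏ p ∈ (pr H).filter (fun p => p ≤ w), (1 + b p / p) := by
      apply Finset.prod_nonneg
      intro p hp
      have := hb0 p (mem_filter.1 (mem_filter.1 hp).1).2
      positivity
    have h2 := hprb ((pr H).filter (fun p => p ≤ w)) (Finset.filter_subset _ _)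
    have h3 : (1 : ℝ) ≤ ∏ p ∈ (pr H).filter (fun p => ¬ p ≤ w), (1 + b p / p) := by
      apply Finset.prod_induction _ (fun x => 1 ≤ x)
      · intro x y hx hy
        nlinarith
      · exact le_rfl
      · intro p hp
        have := hb0 p (mem_filter.1 (mem_filter.1 hp).1).2
        have : 0 ≤ b p / p := by positivity
        linarith
    have h4 : ∏ p ∈ (pr H).filter (fun p => ¬ p ≤ w), (1 + a p / p) ≤ Real.exp (3 * (1 / (w : ℝ))) := by
      refine (prod_exp _ (fun p => a p / p) ?_).trans (Real.exp_le_exp.2 ?_)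
      · intro p hp
        have hpp := (mem_filter.1 (mem_filter.1 hp).1).2
        have := (hb0 p hpp).trans (hab p hpp)
        positivity
      · have h5 : ∀ p ∈ (pr H).filter (fun p => ¬ p ≤ w), a p / p ≤ 3 * (1 / ((p : ℝ) * (p - 1))) := by
          intro p hp
          rw [mem_filter] at hp
          have hpp := (mem_filter.1 hp.1).2
          have h6 := hp2 p hpp
          have e2 : a p = (1 + 1 / ((p : ℝ) - 1)) ^ 2 - 1 := by
            rw [ha]
            simp only [hp.2, if_false]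
          rw [e2, div_le_iff₀ (by linarith)]
          have e3 : 3 * (1 / ((p : ℝ) * (p - 1))) * p = 3 * (1 / ((p : ℝ) - 1)) := by
            have : (p : ℝ) ≠ 0 := by linarith
            have : (p : ℝ) - 1 ≠ 0 := by linarith
            field_simp
          rw [e3]
          have h7 : 0 ≤ 1 / ((p : ℝ) - 1) := div_nonneg zero_le_one (by linarith)
          have h8 : 1 / ((p : ℝ) - 1) ≤ 1 := by
            rw [div_le_one (by linarith)]
            linarith
          nlinarith
        refine (Finset.sum_le_sum h5).trans ?_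
        rw [← Finset.mul_sum]
        apply mul_le_mul_of_nonneg_left _ (by norm_num)
        apply tail_sum (by omega) H
        intro p hp
        unfold pr at hp
        rw [mem_filter, mem_filter, mem_Icc] at hp
        rw [mem_Ioc]
        omega
    have h5 : 0 ≤ Real.exp (3 * (1 / (w : ℝ))) - 1 := by
      have : 0 ≤ 3 * (1 / (w : ℝ)) := by positivity
      linarith [Real.one_le_exp this]
    calc _ ≤ (∏ p ∈ (pr H).filter (fun p => p ≤ w), (1 + b p / p)) * (Real.exp (3 * (1 / (w : ℝ))) - 1) :=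
          mul_le_mul_of_nonneg_left (by linarith) h1
      _ ≤ _ := mul_le_mul_of_nonneg_right h2 h5
  -- the product of the lower bounds
  set V : ℝ := ∏ p ∈ (Ioc w z).filter Nat.Prime, (1 - 1 / ((p : ℝ) - 1) ^ 2) with hV
  have hVf : ∀ p ∈ (Ioc w z).filter Nat.Prime, (0 : ℝ) ≤ 1 - 1 / ((p : ℝ) - 1) ^ 2 ∧
      (1 : ℝ) - 1 / ((p : ℝ) - 1) ^ 2 ≤ 1 := by
    intro p hp
    rw [mem_filter, mem_Ioc] at hp
    have h1 : (w : ℝ) + 1 ≤ p := by exact_mod_cast hp.1.1
    have h2 : (1 : ℝ) ≤ ((p : ℝ) - 1) ^ 2 := by nlinarith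
    have h3 : 1 / ((p : ℝ) - 1) ^ 2 ≤ 1 := by
      rw [div_le_one (by linarith)]
      exact h2
    have h4 : 0 ≤ 1 / ((p : ℝ) - 1) ^ 2 := by positivity
    constructor <;> linarith
  have hV1 : 1 - V ≤ 2 * (1 / (w : ℝ)) := by
    have h1 : ∀ T : Finset ℕ, T ⊆ (Ioc w z).filter Nat.Prime →
        1 - ∏ p ∈ T, (1 - 1 / ((p : ℝ) - 1) ^ 2) ≤ ∑ p ∈ T, 1 / ((p : ℝ) - 1) ^ 2 := by
      classical
      intro T
      induction T using Finset.induction_on with
      | empty => intro _; simp
      | insert p T hp ih =>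
        intro hT
        rw [Finset.prod_insert hp, Finset.sum_insert hp]
        have h2 := ih ((Finset.subset_insert _ _).trans hT)
        have h3 := hVf p (hT (mem_insert_self _ _))
        have h4 : 0 ≤ ∏ p ∈ T, (1 - 1 / ((p : ℝ) - 1) ^ 2) :=
          Finset.prod_nonneg fun q hq => (hVf q (hT (mem_insert_of_mem hq))).1
        have h5 : ∏ p ∈ T, (1 - 1 / ((p : ℝ) - 1) ^ 2) ≤ 1 :=
          Finset.prod_le_one (fun q hq => (hVf q (hT (mem_insert_of_mem hq))).1)
            (fun q hq => (hVf q (hT (mem_insert_of_mem hq))).2)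
        have h6 : 0 ≤ 1 / ((p : ℝ) - 1) ^ 2 := by linarith [h3.2]
        nlinarith
    refine (h1 _ (Finset.Subset.refl _)).trans ?_
    have h2 : ∀ p ∈ (Ioc w z).filter Nat.Prime, 1 / ((p : ℝ) - 1) ^ 2 ≤ 2 * (1 / ((p : ℝ) * (p - 1))) := by
      intro p hp
      rw [mem_filter, mem_Ioc] at hp
      have h1 : (w : ℝ) + 1 ≤ p := by exact_mod_cast hp.1.1
      have h3 : 0 < (p : ℝ) - 1 := by linarith
      have h4 : 0 < (p : ℝ) := by linarith
      rw [mul_one_div, div_le_div_iff₀ (by positivity) (by positivity)]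
      nlinarith
    refine (Finset.sum_le_sum h2).trans ?_
    rw [← Finset.mul_sum]
    apply mul_le_mul_of_nonneg_left _ (by norm_num)
    exact tail_sum (by omega) z _ (Finset.filter_subset _ _)
  have hV0 : V ≤ 1 := Finset.prod_le_one (fun q hq => (hVf q hq).1) (fun q hq => (hVf q hq).2)
  -- pointwise estimate
  have hpt : ∀ h ∈ Icc 1 H, ((h : ℝ) / Nat.totient h) * |sg w z h - 1| ≤
      (∏ p ∈ h.primeFactors, (1 + a p) - ∏ p ∈ h.primeFactors, (1 + b p)) +
        ((h : ℝ) / Nat.totient h) * (2 * (1 / (w : ℝ))) := by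
    classical
    intro h hh
    rw [mem_Icc] at hh
    have hP : ∀ p ∈ h.primeFactors, p.Prime := fun p hp => Nat.prime_of_mem_primeFactors hp
    rw [ratio_eq (by omega)]
    have eb : ∏ p ∈ h.primeFactors, (1 + 1 / ((p : ℝ) - 1)) = ∏ p ∈ h.primeFactors, (1 + b p) := rfl
    rw [eb]
    set F := ∏ p ∈ h.primeFactors, (1 + b p) with hF'
    have hF0 : 0 ≤ F := Finset.prod_nonneg fun p hp => by linarith [hb0 p (hP p hp)]
    set U := ∏ p ∈ h.primeFactors.filter (fun p => ¬ p ≤ w), (1 + b p) with hU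
    have hFU : ∏ p ∈ h.primeFactors, (1 + a p) = F * U := by
      rw [hF', hU, ← Finset.prod_filter_mul_prod_filter_not h.primeFactors (fun p => p ≤ w),
        ← Finset.prod_filter_mul_prod_filter_not h.primeFactors (fun p => p ≤ w) (fun p => 1 + b p),
        mul_assoc, ← Finset.prod_mul_distrib]
      congr 1
      · refine Finset.prod_congr rfl fun p hp => ?_
        rw [mem_filter] at hp
        rw [ha, hb]
        simp only [hp.2, if_true]
      · refine Finset.prod_congr rfl fun p hp => ?_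
        rw [mem_filter] at hp
        rw [ha, hb]
        simp only [hp.2, if_false]
        ring
    have hQ : ∀ p ∈ (Ioc w z).filter Nat.Prime, (w : ℝ) + 1 ≤ p ∧ p.Prime ∧ w < p := by
      intro p hp
      rw [mem_filter, mem_Ioc] at hp
      exact ⟨by exact_mod_cast hp.1.1, hp.2, hp.1.1⟩
    have hsgV : V ≤ sg w z h := by
      rw [hV]
      unfold sg
      apply Finset.prod_le_prod (fun p hp => (hVf p hp).1)
      intro p hp
      obtain ⟨h1, h2, _⟩ := hQ p hp
      have h3 : 0 < (p : ℝ) - 1 := by linarith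
      split_ifs with h4
      · have h5 : 0 ≤ 1 / ((p : ℝ) - 1) ^ 2 := by positivity
        have h6 : (1 : ℝ) ≤ p / (p - 1) := by
          rw [le_div_iff₀ h3]
          linarith
        linarith
      · apply le_of_eq
        field_simp
        ring
    have hsgU : sg w z h ≤ U := by
      unfold sg
      have h1 : ∏ p ∈ (Ioc w z).filter Nat.Prime, (if p ∣ h then (p : ℝ) / (p - 1) else (p : ℝ) * (p - 2) / (p - 1) ^ 2) ≤
          ∏ p ∈ (Ioc w z).filter Nat.Prime, (if p ∣ h then (1 + b p) else 1) := by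
        apply Finset.prod_le_prod
        · intro p hp
          obtain ⟨h1, h2, _⟩ := hQ p hp
          have h3 : 0 < (p : ℝ) - 1 := by linarith
          have h4 : 0 < (p : ℝ) := by linarith
          have h5 : 0 ≤ (p : ℝ) - 2 := by linarith
          split_ifs
          · positivity
          · positivity
        · intro p hp
          obtain ⟨h1, h2, _⟩ := hQ p hp
          have h3 : 0 < (p : ℝ) - 1 := by linarith
          split_ifs
          · apply le_of_eq
            rw [hb]
            field_simp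
            ring
          · rw [div_le_one (by positivity)]
            nlinarith
      refine h1.trans ?_
      rw [← Finset.prod_filter]
      have hsub2 : ((Ioc w z).filter Nat.Prime).filter (fun p => p ∣ h) ⊆
          h.primeFactors.filter (fun p => ¬ p ≤ w) := by
        intro p hp
        rw [mem_filter] at hp
        obtain ⟨_, h2, h3⟩ := hQ p hp.1
        rw [mem_filter, Nat.mem_primeFactors]
        exact ⟨⟨h2, hp.2, by omega⟩, by omega⟩
      rw [hU, ← Finset.prod_sdiff hsub2]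
      have h2 : 1 ≤ ∏ p ∈ h.primeFactors.filter (fun p => ¬ p ≤ w) \
          ((Ioc w z).filter Nat.Prime).filter (fun p => p ∣ h), (1 + b p) := by
        apply Finset.prod_induction _ (fun x => 1 ≤ x)
        · intro x y hx hy
          nlinarith
        · exact le_rfl
        · intro p hp
          have := hb0 p (hP p (mem_filter.1 (mem_sdiff.1 hp).1).1)
          linarith
      have h3 : 0 ≤ ∏ p ∈ ((Ioc w z).filter Nat.Prime).filter (fun p => p ∣ h), (1 + b p) := by
        apply Finset.prod_nonneg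
        intro p hp
        have := hb0 p (hP p (mem_filter.1 (hsub2 hp)).1)
        linarith
      nlinarith
    have hU1 : 1 ≤ U := by
      apply Finset.prod_induction _ (fun x => 1 ≤ x)
      · intro x y hx hy
        nlinarith
      · exact le_rfl
      · intro p hp
        have := hb0 p (hP p (mem_filter.1 hp).1)
        linarith
    have habs : |sg w z h - 1| ≤ (U - 1) + (1 - V) := by
      rw [abs_le]
      constructor <;> linarith
    rw [hFU]
    have h1 : F * |sg w z h - 1| ≤ F * ((U - 1) + 2 * (1 / (w : ℝ))) :=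
      mul_le_mul_of_nonneg_left (by linarith) hF0
    linarith
  calc ∑ h ∈ Icc 1 H, ((h : ℝ) / Nat.totient h) * |sg w z h - 1|
      ≤ ∑ h ∈ Icc 1 H, ((∏ p ∈ h.primeFactors, (1 + a p) - ∏ p ∈ h.primeFactors, (1 + b p)) +
        ((h : ℝ) / Nat.totient h) * (2 * (1 / (w : ℝ)))) := Finset.sum_le_sum hpt
    _ = ∑ h ∈ Icc 1 H, (∏ p ∈ h.primeFactors, (1 + a p) - ∏ p ∈ h.primeFactors, (1 + b p)) +
        (∑ h ∈ Icc 1 H, (h : ℝ) / Nat.totient h) * (2 * (1 / (w : ℝ))) := by
        rw [Finset.sum_add_distrib, Finset.sum_mul]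
    _ ≤ H * (Real.exp 1 * (Real.exp (3 * (1 / (w : ℝ))) - 1)) + H * Real.exp 1 * (2 * (1 / (w : ℝ))) := by
        apply add_le_add
        · exact hdiff.trans (mul_le_mul_of_nonneg_left hprod (Nat.cast_nonneg H))
        · exact mul_le_mul_of_nonneg_right hF (by positivity)
    _ = H * (Real.exp 1 * (Real.exp (3 * (1 / (w : ℝ))) - 1) + Real.exp 1 * (2 * (1 / (w : ℝ)))) := by ring
    _ ≤ H * ε := mul_le_mul_of_nonneg_left hε' (Nat.cast_nonneg H)
    _ = ε * H := mul_comm _ _

end Pool.Agent.Q199.GC
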